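import Mathlib
import Pool.Agent.H359R3.IX15

/-!
# MP_ba7837_an, Q1 (a) and (b) (positive answers)

The generic automorphism of an infinite sigma-finite Lebesgue space has a nontrivial factor and has
roots of every order.
-/

open MeasureTheory Set Filter Topology
open scoped ENNReal symmDiff

namespace Pool.Agent.Results.MP_ba7837_an.GenericFactorRoots

/-- Borel automorphisms of `X` preserving `μ` (representatives). -/
abbrev AutInf {X : Type*} [MeasurableSpace X] (μ : Measure X) : Type _ :=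
  {e : X ≃ᵐ X // MeasurePreserving (⇑e) μ μ}

/-- The weak topology: the coarsest one for which `T ↦ μ (T⁻¹ A Δ B)` and `T ↦ μ (T A Δ B)` are
continuous for all measurable `A`, `B` of finite measure. -/
noncomputable abbrev weakTopology {X : Type*} [MeasurableSpace X] (μ : Measure X) :
    TopologicalSpace (AutInf μ) :=
  ⨅ (A : Set X) (B : Set X) (_ : MeasurableSet A) (_ : MeasurableSet B) (_ : μ A < ∞) (_ : μ B < ∞),
    TopologicalSpace.induced (fun T : AutInf μ => μ (symmDiff ((⇑T.1) ⁻¹' A) B)) inferInstance ⊓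
    TopologicalSpace.induced (fun T : AutInf μ => μ (symmDiff ((⇑T.1) '' A) B)) inferInstance

/-- `𝓕` is a factor of `T`: a sub-sigma-algebra with `T⁻¹ 𝓕 = 𝓕` modulo null sets on which `μ` is
sigma-finite. -/
def IsFactor {X : Type*} {mX : MeasurableSpace X} {μ : Measure X} (T : AutInf μ)
    (𝓕 : MeasurableSpace X) : Prop :=
  𝓕 ≤ mX ∧
  (∀ s, MeasurableSet[𝓕] s → ∃ t, MeasurableSet[𝓕] t ∧ μ (symmDiff ((⇑T.1) ⁻¹' s) t) = 0) ∧
  (∀ s, MeasurableSet[𝓕] s → ∃ t, MeasurableSet[𝓕] t ∧ μ (symmDiff s ((⇑T.1) ⁻¹' t)) = 0) ∧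
  ∃ U : ℕ → Set X, (∀ n, MeasurableSet[𝓕] (U n) ∧ μ (U n) < ∞) ∧ ⋃ n, U n = univ

/-- `𝓕` differs from the full sigma-algebra modulo null sets. -/
def IsNontrivial {X : Type*} {mX : MeasurableSpace X} (μ : Measure X) (𝓕 : MeasurableSpace X) : Prop :=
  ∃ s, MeasurableSet[mX] s ∧ ∀ t, MeasurableSet[𝓕] t → μ (symmDiff s t) ≠ 0

/-- The generic automorphism of a standard Lebesgue space with an infinite sigma-finite nonatomic
measure has a nontrivial factor and has roots of all orders. -/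
theorem result (X : Type*) [MeasurableSpace X] [StandardBorelSpace X] (μ : Measure X) [SigmaFinite μ]
    (hinf : μ univ = ∞) (hatom : ∀ x, μ {x} = 0) :
    ∀ᶠ T in @residual (AutInf μ) (weakTopology μ),
      (∃ 𝓕 : MeasurableSpace X, IsFactor T 𝓕 ∧ IsNontrivial μ 𝓕) ∧
      ∀ n : ℕ, 2 ≤ n → ∃ S : AutInf μ, ∀ᵐ x ∂μ, (⇑S.1)^[n] x = T.1 x := by
  have : NullSingletonClass μ := ⟨hatom⟩
  exact Pool.H359R3.IX.general_main μ hinf

end Pool.Agent.Results.MP_ba7837_an.GenericFactorRoots
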