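import Mathlib
import Pool.Agent.H359R3.IX21

/-!
# MP_ba7837_an, Q2 (positive answer)

The generic automorphism of an infinite sigma-finite Lebesgue space embeds in a flow.
-/

open MeasureTheory Set Filter Topology
open scoped ENNReal symmDiff

namespace Pool.Agent.Results.MP_ba7837_an.GenericFlow

/-- Borel automorphisms of `X` preserving `μ` (representatives). -/
abbrev AutInf {X : Type*} [MeasurableSpace X] (μ : Measure X) : Type _ :=
  {e : X ≃ᵐ X // MeasurePreserving (⇑e) μ μ}

/-- The weak topology: the coarsest one for which `T ↦ μ (T⁻¹ A Δ B)` and `T ↦ μ (T A Δ B)` are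
continuous for all measurable `A`, `B` of finite measure. -/
noncomputable abbrev weakTopology {X : Type*} [MeasurableSpace X] (μ : Measure X) :
    TopologicalSpace (AutInf μ) :=
  ⨅ (A : Set X) (B : Set X) (_ : MeasurableSet A) (_ : MeasurableSet B) (_ : μ A < ∞) (_ : μ B < ∞),
    TopologicalSpace.induced (fun T : AutInf μ => μ (symmDiff ((⇑T.1) ⁻¹' A) B)) inferInstance ⊓
    TopologicalSpace.induced (fun T : AutInf μ => μ (symmDiff ((⇑T.1) '' A) B)) inferInstance

/-- `T` embeds in a flow: there is a one-parameter family of automorphisms, continuous in the weak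
topology, which is a homomorphism modulo null sets and equals `T` modulo null sets at time one. -/
def EmbedsInFlow {X : Type*} [MeasurableSpace X] {μ : Measure X} (T : AutInf μ) : Prop :=
  ∃ Φ : ℝ → AutInf μ, @Continuous ℝ (AutInf μ) _ (weakTopology μ) Φ ∧
    (∀ s t : ℝ, ∀ᵐ x ∂μ, (Φ (s + t)).1 x = (Φ s).1 ((Φ t).1 x)) ∧
    ∀ᵐ x ∂μ, (Φ 1).1 x = T.1 x

/-- The generic automorphism of a standard Lebesgue space with an infinite sigma-finite nonatomic
measure embeds in a flow. -/
theorem result (X : Type*) [MeasurableSpace X] [StandardBorelSpace X] (μ : Measure X) [SigmaFinite μ]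
    (hinf : μ univ = ∞) (hatom : ∀ x, μ {x} = 0) :
    ∀ᶠ T in @residual (AutInf μ) (weakTopology μ), EmbedsInFlow T := by
  have : NullSingletonClass μ := ⟨hatom⟩
  exact Pool.H359R3.IX.general_flow μ hinf

end Pool.Agent.Results.MP_ba7837_an.GenericFlow
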